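import Mathlib

/-!
Separable nondegenerate families of convex bodies in space in which every proper subfamily is in
convex position while the whole family is not.
-/

namespace Pool.Agent.Results.MP_41a254_co.Bodies

open Set Filter Topology
open scoped Pointwise RealInnerProductSpace

abbrev E := EuclideanSpace ℝ (Fin 3)

/-- compact, convex, with nonempty interior -/
def IsBody (K : Set E) : Prop := IsCompact K ∧ Convex ℝ K ∧ (interior K).Nonempty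

/-- for any three distinct members, a plane strictly separates the union of the first two from
the third -/
def Separable {n : ℕ} (C : Fin n → Set E) : Prop :=
  ∀ a b c, a ≠ b → a ≠ c → b ≠ c → ∃ (v : E) (t : ℝ), v ≠ 0 ∧
    (∀ x ∈ C a ∪ C b, ⟪v, x⟫ < t) ∧ ∀ x ∈ C c, t < ⟪v, x⟫

/-- the plane `⟪v, x⟫ = t` meets `K` and `K` lies on one (either) closed side of it -/
def Supports (v : E) (t : ℝ) (K : Set E) : Prop :=
  (∃ x ∈ K, ⟪v, x⟫ = t) ∧ ((∀ x ∈ K, ⟪v, x⟫ ≤ t) ∨ ∀ x ∈ K, t ≤ ⟪v, x⟫)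

/-- no four members have a common supporting plane -/
def Nondegenerate {n : ℕ} (C : Fin n → Set E) : Prop :=
  ∀ s : Finset (Fin n), s.card = 4 → ¬ ∃ (v : E) (t : ℝ), v ≠ 0 ∧ ∀ i ∈ s, Supports v t (C i)

/-- the members indexed by `s` are in convex position: for each of them, a nonempty relatively
open part of its boundary lies on the boundary of the convex hull of their union -/
def ConvexPos {n : ℕ} (C : Fin n → Set E) (s : Finset (Fin n)) : Prop :=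
  ∀ i ∈ s, ∃ U : Set E, IsOpen U ∧ (U ∩ frontier (C i)).Nonempty ∧
    U ∩ frontier (C i) ⊆ frontier (convexHull ℝ (⋃ j ∈ s, C j))

/-! ### thickened polytopes -/

def body (S : Finset E) (ρ : ℝ) : Set E := convexHull ℝ (S : Set E) + Metric.closedBall 0 ρ

lemma add_mem_body {S : Finset E} {ρ : ℝ} {w b : E} (hw : w ∈ S) (hb : ‖b‖ ≤ ρ) :
    w + b ∈ body S ρ :=
  Set.add_mem_add (subset_convexHull ℝ _ hw) (by simpa using hb)

lemma ball_subset_body {S : Finset E} {ρ : ℝ} {w : E} (hw : w ∈ S) :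
    Metric.ball w ρ ⊆ body S ρ := by
  intro y hy
  have := add_mem_body (b := y - w) (ρ := ρ) hw (by
    rw [← dist_eq_norm]; exact (Metric.mem_ball.1 hy).le)
  simpa using this

lemma isCompact_body (S : Finset E) (ρ : ℝ) : IsCompact (body S ρ) :=
  (S.finite_toSet.isCompact_convexHull ℝ).add (isCompact_closedBall _ _)

lemma isBody {S : Finset E} {ρ : ℝ} (hS : S.Nonempty) (hρ : 0 < ρ) : IsBody (body S ρ) := by
  obtain ⟨w, hw⟩ := hS
  refine ⟨isCompact_body _ _, (convex_convexHull _ _).add (convex_closedBall _ _), w, ?_⟩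
  exact interior_maximal (ball_subset_body hw) Metric.isOpen_ball (Metric.mem_ball_self hρ)

lemma convex_half (v : E) (c : ℝ) : Convex ℝ {x : E | ⟪v, x⟫ ≤ c} :=
  convex_halfSpace_le (innerₗ E v).isLinear c

lemma inner_le {S : Finset E} {ρ c : ℝ} {v z : E} (h : ∀ x ∈ S, ⟪v, x⟫ ≤ c)
    (hz : z ∈ body S ρ) : ⟪v, z⟫ ≤ c + ρ * ‖v‖ := by
  obtain ⟨k, hk, b, hb, rfl⟩ := hz
  have h1 : ⟪v, k⟫ ≤ c := convexHull_min (fun x hx => h x hx) (convex_half v c) hk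
  have h2 : ⟪v, b⟫ ≤ ‖v‖ * ‖b‖ := real_inner_le_norm _ _
  have h3 : ‖b‖ ≤ ρ := by simpa using hb
  have h4 := mul_le_mul_of_nonneg_left h3 (norm_nonneg v)
  simp only [inner_add_right]
  linarith

lemma inner_lt {S : Finset E} {ρ r t : ℝ} {v z : E} (hρ : ρ ≤ r)
    (h : ∀ x ∈ S, ⟪v, x⟫ + r * ‖v‖ < t) (hz : z ∈ body S ρ) : ⟪v, z⟫ < t := by
  have hS : S.Nonempty := by
    obtain ⟨k, hk, -⟩ := hz
    exact Finset.coe_nonempty.1 (convexHull_nonempty_iff.1 ⟨k, hk⟩)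
  obtain ⟨w, hw, hmax⟩ := S.exists_max_image (fun x => ⟪v, x⟫) hS
  have h1 := inner_le hmax hz
  have h2 := h w hw
  have h3 := mul_le_mul_of_nonneg_right hρ (norm_nonneg v)
  linarith

lemma near_of_le {S : Finset E} {ρ t : ℝ} {v : E} (hρ : 0 ≤ ρ)
    (h1 : ∃ x ∈ body S ρ, ⟪v, x⟫ = t) (h2 : ∀ x ∈ body S ρ, ⟪v, x⟫ ≤ t) :
    ∃ w ∈ S, |⟪v, w⟫ - t| ≤ ρ * ‖v‖ := by
  obtain ⟨z, hz, rfl⟩ := h1
  have hS : S.Nonempty := by
    obtain ⟨k, hk, -⟩ := hz
    exact Finset.coe_nonempty.1 (convexHull_nonempty_iff.1 ⟨k, hk⟩)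
  obtain ⟨w, hw, hmax⟩ := S.exists_max_image (fun x => ⟪v, x⟫) hS
  have h3 := inner_le hmax hz
  have h4 := h2 _ (add_mem_body (b := 0) hw (by simpa using hρ))
  rw [add_zero] at h4
  refine ⟨w, hw, abs_le.2 ⟨by linarith, ?_⟩⟩
  have := mul_nonneg hρ (norm_nonneg v)
  linarith

lemma near_of_supports {S : Finset E} {ρ t : ℝ} {v : E} (hρ : 0 ≤ ρ)
    (h : Supports v t (body S ρ)) : ∃ w ∈ S, |⟪v, w⟫ - t| ≤ ρ * ‖v‖ := by
  rcases h with ⟨h1, h2 | h2⟩
  · exact near_of_le hρ h1 h2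
  · obtain ⟨w, hw, h3⟩ := near_of_le (v := -v) (t := -t) (S := S) hρ
      (by obtain ⟨x, hx, h⟩ := h1; exact ⟨x, hx, by rw [inner_neg_left, h]⟩)
      (fun x hx => by rw [inner_neg_left]; exact neg_le_neg (h2 x hx))
    refine ⟨w, hw, ?_⟩
    rw [inner_neg_left, norm_neg] at h3
    rw [← abs_neg]
    convert h3 using 2
    ring

lemma ev_lt {a b : ℝ} (c : ℝ) (h : a < b) : ∀ᶠ r in 𝓝[>] (0 : ℝ), a + r * c < b := by
  have : Tendsto (fun r : ℝ => a + r * c) (𝓝 0) (𝓝 (a + 0 * c)) :=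
    (by fun_prop : Continuous fun r : ℝ => a + r * c).tendsto 0
  rw [zero_mul, add_zero] at this
  exact (this.eventually (gt_mem_nhds h)).filter_mono nhdsWithin_le_nhds

/-- four affinely independent points are not all close to a plane -/
def Indep (a b c d : E) : Prop :=
  ∀ (v : E) (t : ℝ), ⟪v, a⟫ = t → ⟪v, b⟫ = t → ⟪v, c⟫ = t → ⟪v, d⟫ = t → v = 0

lemma ev_indep {a b c d : E} (h : Indep a b c d) : ∀ᶠ r in 𝓝[>] (0 : ℝ), ∀ (v : E) (t : ℝ),
    |⟪v, a⟫ - t| ≤ r * ‖v‖ → |⟪v, b⟫ - t| ≤ r * ‖v‖ → |⟪v, c⟫ - t| ≤ r * ‖v‖ →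
    |⟪v, d⟫ - t| ≤ r * ‖v‖ → v = 0 := by
  let L : E →ₗ[ℝ] ℝ × ℝ × ℝ :=
    (innerₗ E (b - a)).prod ((innerₗ E (c - a)).prod (innerₗ E (d - a)))
  have hL : ∀ v, L v = (⟪v, b⟫ - ⟪v, a⟫, ⟪v, c⟫ - ⟪v, a⟫, ⟪v, d⟫ - ⟪v, a⟫) := by
    intro v
    show (⟪b - a, v⟫, ⟪c - a, v⟫, ⟪d - a, v⟫) = _
    simp only [real_inner_comm v, inner_sub_right]
  obtain ⟨K, hK, hA⟩ := L.exists_antilipschitzWith (by
    rw [LinearMap.ker_eq_bot']
    intro v hv
    rw [hL, Prod.mk_eq_zero, Prod.mk_eq_zero] at hv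
    exact h v _ rfl (by linarith [hv.1]) (by linarith [hv.2.1]) (by linarith [hv.2.2]))
  filter_upwards [ev_lt (2 * (K : ℝ)) (zero_lt_one' ℝ)] with r hr v t h1 h2 h3 h4
  have h5 : ‖v‖ ≤ K * ‖L v‖ := by
    have := hA.le_mul_dist v 0
    simpa using this
  have h6 : ‖L v‖ ≤ 2 * (r * ‖v‖) := by
    rw [abs_le] at h1 h2 h3 h4
    rw [hL, norm_prod_le_iff, norm_prod_le_iff]
    simp only [Real.norm_eq_abs, abs_le]
    refine ⟨⟨?_, ?_⟩, ⟨?_, ?_⟩, ?_, ?_⟩ <;> linarith [h1.1, h1.2, h2.1, h2.2, h3.1, h3.2, h4.1, h4.2]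
  have h7 := mul_le_mul_of_nonneg_left h6 K.coe_nonneg
  by_contra hv
  have h8 : 0 < ‖v‖ := norm_pos_iff.2 hv
  nlinarith

lemma not_interior {H : Set E} {w y : E} {ρ : ℝ} (hρ : 0 < ρ) (hy : ρ ≤ ‖y - w‖)
    (hH : ∀ z ∈ H, ⟪y - w, z⟫ ≤ ⟪y - w, w⟫ + ρ * ‖y - w‖) : y ∉ interior H := by
  intro hint
  have h0 : 0 < ‖y - w‖ := lt_of_lt_of_le hρ hy
  have h1 : Tendsto (fun e : ℝ => y + e • (y - w)) (𝓝 0) (𝓝 (y + (0 : ℝ) • (y - w))) :=
    (by fun_prop : Continuous fun e : ℝ => y + e • (y - w)).tendsto 0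
  rw [zero_smul, add_zero] at h1
  have h2 : ∀ᶠ e in 𝓝[>] (0 : ℝ), y + e • (y - w) ∈ H :=
    (h1.eventually (mem_interior_iff_mem_nhds.1 hint)).filter_mono nhdsWithin_le_nhds
  obtain ⟨e, he1, he2⟩ := (h2.and self_mem_nhdsWithin).exists
  have he : 0 < e := he2
  have h3 := hH _ he1
  have h4 : ⟪y - w, y⟫ = ⟪y - w, w⟫ + ‖y - w‖ ^ 2 := by
    rw [← real_inner_self_eq_norm_sq, inner_sub_right]; ring
  rw [inner_add_right, inner_smul_right, real_inner_self_eq_norm_sq, h4] at h3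
  have h5 : 0 < e * ‖y - w‖ ^ 2 := by positivity
  nlinarith

lemma piece {n : ℕ} (S : Fin n → Finset E) (ρ : Fin n → ℝ) (r : ℝ) (hρ : ∀ i, 0 < ρ i)
    (hr : ∀ i, ρ i ≤ r) (s : Finset (Fin n)) (i : Fin n) (hi : i ∈ s) (v w : E) (hv : v ≠ 0)
    (hw : w ∈ S i)
    (h : ∀ j ∈ s, ∀ x ∈ S j, (j = i ∧ x = w) ∨ ⟪v, x⟫ + r * ‖v‖ < ⟪v, w⟫) :
    ∃ U : Set E, IsOpen U ∧ (U ∩ frontier (body (S i) (ρ i))).Nonempty ∧
      U ∩ frontier (body (S i) (ρ i)) ⊆
        frontier (convexHull ℝ (⋃ j ∈ s, body (S j) (ρ j))) := by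
  let U : Set E := ⋂ j ∈ s, ⋂ x ∈ S j,
    {y | (j = i ∧ x = w) ∨ ⟪y - w, x⟫ + r * ‖y - w‖ < ⟪y - w, w⟫}
  have hU : ∀ y, y ∈ U ↔ ∀ j ∈ s, ∀ x ∈ S j,
      (j = i ∧ x = w) ∨ ⟪y - w, x⟫ + r * ‖y - w‖ < ⟪y - w, w⟫ := by
    intro y; simp only [U, mem_iInter, mem_ofPred_eq]
  have hsub : body (S i) (ρ i) ⊆ convexHull ℝ (⋃ j ∈ s, body (S j) (ρ j)) :=
    (subset_biUnion_of_mem (u := fun j => body (S j) (ρ j)) hi).trans (subset_convexHull _ _)
  have key : ∀ y ∈ U, ρ i ≤ ‖y - w‖ →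
      y ∉ interior (convexHull ℝ (⋃ j ∈ s, body (S j) (ρ j))) := by
    intro y hy hy2
    refine not_interior (hρ i) hy2 fun z hz => ?_
    refine convexHull_min ?_ (convex_half _ _) hz
    intro z hz
    simp only [mem_iUnion] at hz
    obtain ⟨j, hj, hz⟩ := hz
    have h1 := (hU y).1 hy j hj
    have h2 : 0 ≤ r * ‖y - w‖ := mul_nonneg ((hρ i).le.trans (hr i)) (norm_nonneg _)
    by_cases hji : j = i
    · subst hji
      refine inner_le (fun x hx => ?_) hz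
      rcases h1 x hx with h3 | h3
      · rw [h3.2]
      · linarith
    · have h3 := inner_lt (hr j) (fun x hx => (h1 x hx).resolve_left fun hh => hji hh.1) hz
      have h4 : 0 ≤ ρ i * ‖y - w‖ := mul_nonneg (hρ i).le (norm_nonneg _)
      show ⟪y - w, z⟫ ≤ _
      linarith
  refine ⟨U, ?_, ?_, ?_⟩
  · refine isOpen_biInter_finset fun j _ => isOpen_biInter_finset fun x _ => ?_
    rw [ofPred_or]
    exact isOpen_const.union (isOpen_lt (by fun_prop) (by fun_prop))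
  · have hv' : 0 < ‖v‖ := norm_pos_iff.2 hv
    have hc : 0 < ρ i / ‖v‖ := div_pos (hρ i) hv'
    have hn : ‖(ρ i / ‖v‖) • v‖ = ρ i := by
      rw [norm_smul, Real.norm_eq_abs, abs_of_pos hc]; field_simp
    have hyU : w + (ρ i / ‖v‖) • v ∈ U := by
      rw [hU]
      intro j hj x hx
      refine (h j hj x hx).imp id fun h1 => ?_
      rw [add_sub_cancel_left, inner_smul_left, inner_smul_left, norm_smul, Real.norm_eq_abs,
        abs_of_pos hc]
      have := mul_lt_mul_of_pos_left h1 hc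
      simp only [conj_trivial]
      linarith
    refine ⟨_, hyU, subset_closure (add_mem_body hw hn.le), fun hint => ?_⟩
    exact key _ hyU (by rw [add_sub_cancel_left, hn]) (interior_mono hsub hint)
  · rintro y ⟨hyU, hy1, hy2⟩
    rw [(isCompact_body _ _).isClosed.closure_eq] at hy1
    refine ⟨subset_closure (hsub hy1), key y hyU ?_⟩
    by_contra hlt
    refine hy2 (interior_maximal (ball_subset_body hw) Metric.isOpen_ball ?_)
    rw [Metric.mem_ball, dist_eq_norm]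
    exact not_le.1 hlt

/-! ### the configuration -/

noncomputable def P (t : ℝ) : E := !₂[t, t ^ 2, t ^ 3]

noncomputable def Q (δ m : ℝ) : E :=
  !₂[1 / 2, ((1 - δ) * m + δ * (3 / 2)) / 2, ((1 - δ) * m ^ 2 + δ * (11 / 4)) / 2]

lemma inner_vec (v : E) (x y z : ℝ) : ⟪v, (!₂[x, y, z] : E)⟫ = v 0 * x + v 1 * y + v 2 * z := by
  simp [PiLp.inner_apply, Fin.sum_univ_three, mul_comm]

lemma vec_ne (a b c : ℝ) (h : a ≠ 0 ∨ b ≠ 0 ∨ c ≠ 0) : (!₂[a, b, c] : E) ≠ 0 := by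
  intro h0
  have h1 : a = 0 := by simpa using congrArg (fun v : E => v 0) h0
  have h2 : b = 0 := by simpa using congrArg (fun v : E => v 1) h0
  have h3 : c = 0 := by simpa using congrArg (fun v : E => v 2) h0
  tauto

lemma inner_P (a b c t : ℝ) : ⟪(!₂[a, b, c] : E), P t⟫ = a * t + b * t ^ 2 + c * t ^ 3 := by
  rw [P, inner_vec]; simp

lemma inner_Q (a b c δ m : ℝ) : ⟪(!₂[a, b, c] : E), Q δ m⟫ =
    ((1 - δ) * (a + b * m + c * m ^ 2) + δ * (a + b * (3 / 2) + c * (11 / 4))) / 2 := by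
  rw [Q, inner_vec]; simp; ring

lemma cubic {v : E} {t i j l : ℝ} (hij : i ≠ j) (hil : i ≠ l) (hjl : j ≠ l)
    (hi : ⟪v, P i⟫ = t) (hj : ⟪v, P j⟫ = t) (hl : ⟪v, P l⟫ = t) :
    v 1 = -v 2 * (i + j + l) ∧ v 0 = v 2 * (i * j + i * l + j * l) ∧ t = v 2 * (i * j * l) := by
  rw [P, inner_vec] at hi hj hl
  have h1 : v 0 + v 1 * (i + j) + v 2 * (i ^ 2 + i * j + j ^ 2) = 0 :=
    mul_left_cancel₀ (sub_ne_zero.2 hij) (by linear_combination hi - hj)
  have h2 : v 0 + v 1 * (i + l) + v 2 * (i ^ 2 + i * l + l ^ 2) = 0 :=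
    mul_left_cancel₀ (sub_ne_zero.2 hil) (by linear_combination hi - hl)
  have h3 : v 1 = -v 2 * (i + j + l) :=
    mul_left_cancel₀ (sub_ne_zero.2 hjl) (by linear_combination h1 - h2)
  have h4 : v 0 = v 2 * (i * j + i * l + j * l) := by linear_combination h1 - (i + j) * h3
  exact ⟨h3, h4, by linear_combination -hi + i * h4 + i ^ 2 * h3⟩

lemma zero_of {v : E} (h0 : v 0 = 0) (h1 : v 1 = 0) (h2 : v 2 = 0) : v = 0 := by
  ext k; fin_cases k <;> simp [h0, h1, h2]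

lemma indep_P {i j l m : ℝ} (hij : i ≠ j) (hil : i ≠ l) (hjl : j ≠ l) (him : i ≠ m)
    (hjm : j ≠ m) (hlm : l ≠ m) : Indep (P i) (P j) (P l) (P m) := by
  intro v t hi hj hl hm
  obtain ⟨h1, h0, ht⟩ := cubic hij hil hjl hi hj hl
  rw [P, inner_vec] at hm
  have h2 : v 2 * ((m - i) * (m - j) * (m - l)) = 0 := by
    linear_combination hm - m * h0 - m ^ 2 * h1 + ht
  have h3 : v 2 = 0 := (mul_eq_zero.1 h2).resolve_right
    (mul_ne_zero (mul_ne_zero (sub_ne_zero.2 him.symm) (sub_ne_zero.2 hjm.symm))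
      (sub_ne_zero.2 hlm.symm))
  exact zero_of (by rw [h0, h3, zero_mul]) (by rw [h1, h3]; simp) h3

lemma indep_Q {i j l m K : ℕ} (hK : K ≠ 0) (hij : i ≠ j) (hil : i ≠ l) (hjl : j ≠ l) :
    Indep (P i) (P j) (P l) (Q (1 / K) m) := by
  intro v t hi hj hl hm
  obtain ⟨h1, h0, ht⟩ := cubic (Nat.cast_injective.ne hij) (Nat.cast_injective.ne hil)
    (Nat.cast_injective.ne hjl) hi hj hl
  rw [Q, inner_vec] at hm
  have hK' : (K : ℝ) ≠ 0 := Nat.cast_ne_zero.2 hK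
  have hKK : (K : ℝ) * (1 / K) = 1 := by field_simp
  let z : ℤ := 2 * (K - 1) * ((i * j + i * l + j * l) - (i + j + l) * m + m ^ 2) +
    2 * (i * j + i * l + j * l) - 3 * (i + j + l) + 5 - 4 * K * (i * j * l)
  have hz : ((2 * z + 1 : ℤ) : ℝ) ≠ 0 := Int.cast_ne_zero.2 (by omega)
  have h2 : v 2 * ((2 * z + 1 : ℤ) : ℝ) = 0 := by
    simp only [z]
    push_cast
    generalize (1 / (K : ℝ)) = δ at *
    rw [h0, h1, ht] at hm
    linear_combination 8 * K * hm +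
      (v 2) * (4 * (-(i + j + l) * m + m ^ 2) + 6 * (i + j + l) - 11) * hKK
  have h3 : v 2 = 0 := (mul_eq_zero.1 h2).resolve_right hz
  exact zero_of (by rw [h0, h3, zero_mul]) (by rw [h1, h3]; simp) h3

lemma Indep.swap {a b c d : E} (h : Indep a b c d) :
    Indep d a b c ∧ Indep a d b c ∧ Indep a b d c :=
  ⟨fun v t h1 h2 h3 h4 => h v t h2 h3 h4 h1, fun v t h1 h2 h3 h4 => h v t h1 h3 h4 h2,
    fun v t h1 h2 h3 h4 => h v t h1 h2 h4 h3⟩

noncomputable def dl (N : ℕ) : ℝ := 1 / ((2 * N ^ 2 + 2 : ℕ) : ℝ)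

lemma dl_pos (N : ℕ) : 0 < dl N := by unfold dl; positivity

lemma dl_mul (N : ℕ) : dl N * (2 * (N : ℝ) ^ 2 + 2) = 1 := by
  unfold dl; push_cast; field_simp

lemma dl_le (N : ℕ) : dl N ≤ 1 / 2 := by
  have := dl_mul N
  have := dl_pos N
  nlinarith [sq_nonneg (N : ℝ)]

open Classical in
noncomputable def S (N : ℕ) (i : Fin (N + 2)) : Finset E :=
  if i.val = N + 1 then (Finset.Icc 1 N).image fun m : ℕ => Q (dl N) m else {P i.val}

lemma mem_S {N : ℕ} {i : Fin (N + 2)} {x : E} : x ∈ S N i ↔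
    (i.val = N + 1 ∧ ∃ m : ℕ, 1 ≤ m ∧ m ≤ N ∧ x = Q (dl N) m) ∨ (i.val ≤ N ∧ x = P i.val) := by
  unfold S
  have := i.isLt
  split_ifs with h
  · simp only [Finset.mem_image, Finset.mem_Icc]
    constructor
    · rintro ⟨m, hm, rfl⟩; exact Or.inl ⟨h, m, hm.1, hm.2, rfl⟩
    · rintro (⟨-, m, h1, h2, rfl⟩ | ⟨h1, -⟩)
      · exact ⟨m, ⟨h1, h2⟩, rfl⟩
      · omega
  · rw [Finset.mem_singleton]
    constructor
    · rintro rfl; exact Or.inr ⟨by omega, rfl⟩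
    · rintro (⟨h1, -⟩ | ⟨-, h1⟩)
      · exact absurd h1 h
      · exact h1

lemma S_nonempty {N : ℕ} (hN : 3 ≤ N) (i : Fin (N + 2)) : (S N i).Nonempty := by
  have := i.isLt
  by_cases h : i.val = N + 1
  · exact ⟨_, mem_S.2 (Or.inl ⟨h, 1, le_rfl, by omega, rfl⟩)⟩
  · exact ⟨_, mem_S.2 (Or.inr ⟨by omega, rfl⟩)⟩

lemma sq_ge {a b : ℕ} (h : a ≠ b) : (1 : ℝ) ≤ ((a : ℝ) - b) ^ 2 := by
  have h1 : (1 : ℤ) ≤ ((a : ℤ) - b) ^ 2 := by
    have : (a : ℤ) - b ≠ 0 := by omega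
    have := sq_pos_of_ne_zero this
    omega
  exact_mod_cast h1

/-- every `P j` is strictly exposed -/
lemma expose_P {N : ℕ} (j : Fin (N + 2)) (hj : j.val ≤ N) : ∃ (v : E) (t : ℝ), v ≠ 0 ∧
    t < ⟪v, P j.val⟫ ∧ ∀ a, a ≠ j → ∀ x ∈ S N a, ⟪v, x⟫ < t := by
  have hδ := dl_pos N
  have hδ' := dl_le N
  by_cases h0 : j.val = 0
  · refine ⟨!₂[-1, 0, 0], -1 / 4, vec_ne _ _ _ (by norm_num), ?_, ?_⟩
    · rw [inner_P, h0]; norm_num
    · intro a ha x hx
      rcases mem_S.1 hx with ⟨-, m, -, -, rfl⟩ | ⟨-, rfl⟩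
      · rw [inner_Q]; linarith
      · rw [inner_P]
        have : (1 : ℝ) ≤ a.val := by
          have : a.val ≠ j.val := fun h => ha (Fin.ext h)
          exact_mod_cast (by omega : 1 ≤ a.val)
        linarith
  · have h1 : (1 : ℝ) ≤ j.val := by exact_mod_cast (by omega : 1 ≤ j.val)
    refine ⟨!₂[2 * j.val, -1, 0], (j.val : ℝ) ^ 2 - 1 / 4, vec_ne _ _ _ (by norm_num), ?_, ?_⟩
    · rw [inner_P]; linarith
    · intro a ha x hx
      rcases mem_S.1 hx with ⟨-, m, hm, -, rfl⟩ | ⟨-, rfl⟩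
      · rw [inner_Q]
        have : (1 : ℝ) ≤ m := by exact_mod_cast hm
        nlinarith
      · rw [inner_P]
        have := sq_ge (fun h => ha (Fin.ext h))
        linarith

lemma sep_pts {N : ℕ} (a b c : Fin (N + 2)) (hac : a ≠ c) (hbc : b ≠ c) :
    ∃ (v : E) (t : ℝ), v ≠ 0 ∧ (∀ x ∈ S N a, ⟪v, x⟫ < t) ∧ (∀ x ∈ S N b, ⟪v, x⟫ < t) ∧
      ∀ x ∈ S N c, t < ⟪v, x⟫ := by
  have hδ := dl_pos N
  have hδ' := dl_le N
  have hc := c.isLt
  by_cases h : c.val ≤ N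
  · obtain ⟨v, t, h1, h2, h3⟩ := expose_P c h
    refine ⟨v, t, h1, h3 a hac, h3 b hbc, fun x hx => ?_⟩
    rcases mem_S.1 hx with ⟨h4, -⟩ | ⟨-, rfl⟩
    · omega
    · exact h2
  · have ha : a.val ≠ c.val := fun h => hac (Fin.ext h)
    have hb : b.val ≠ c.val := fun h => hbc (Fin.ext h)
    by_cases h0 : a.val = 0 ∨ b.val = 0
    · obtain ⟨j, hja, hjb⟩ : ∃ j : ℕ, (a.val = 0 ∨ a.val = j) ∧ (b.val = 0 ∨ b.val = j) :=
        ⟨a.val + b.val, by omega, by omega⟩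
      have hP : ∀ k : ℕ, (k = 0 ∨ k = j) →
          ⟪(!₂[(j : ℝ) ^ 2, -2 * j, 1] : E), P k⟫ < dl N / 8 := by
        intro k hk
        rw [inner_P]
        rcases hk with rfl | rfl
        · simp; exact hδ
        · linarith
      refine ⟨!₂[(j : ℝ) ^ 2, -2 * j, 1], dl N / 8, vec_ne _ _ _ (by norm_num), ?_, ?_, ?_⟩
      · intro x hx
        rcases mem_S.1 hx with ⟨h4, -⟩ | ⟨-, rfl⟩
        · omega
        · exact hP _ hja
      · intro x hx
        rcases mem_S.1 hx with ⟨h4, -⟩ | ⟨-, rfl⟩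
        · omega
        · exact hP _ hjb
      · intro x hx
        rcases mem_S.1 hx with ⟨-, m, -, -, rfl⟩ | ⟨h4, -⟩
        · rw [inner_Q]
          have h5 := mul_nonneg (by linarith : 0 ≤ 1 - dl N) (sq_nonneg ((m : ℝ) - j))
          have h6 := mul_nonneg hδ.le (sq_nonneg ((3 / 2 : ℝ) - j))
          nlinarith
        · omega
    · have hP : ∀ k : ℕ, k ≠ 0 → ⟪(!₂[-1, 0, 0] : E), P k⟫ < -3 / 4 := by
        intro k hk
        rw [inner_P]
        have : (1 : ℝ) ≤ k := by exact_mod_cast (by omega : 1 ≤ k)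
        linarith
      refine ⟨!₂[-1, 0, 0], -3 / 4, vec_ne _ _ _ (by norm_num), ?_, ?_, ?_⟩
      · intro x hx
        rcases mem_S.1 hx with ⟨h4, -⟩ | ⟨-, rfl⟩
        · omega
        · exact hP _ (by omega)
      · intro x hx
        rcases mem_S.1 hx with ⟨h4, -⟩ | ⟨-, rfl⟩
        · omega
        · exact hP _ (by omega)
      · intro x hx
        rcases mem_S.1 hx with ⟨-, m, -, -, rfl⟩ | ⟨h4, -⟩
        · rw [inner_Q]; linarith
        · omega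

lemma Q_eq_or {N : ℕ} (m k : ℕ) : Q (dl N) m = Q (dl N) k ∨ m ≠ k := by
  by_cases h : m = k
  · left; rw [h]
  · right; exact h

lemma exp_pts {N : ℕ} (hN : 3 ≤ N) (i k : Fin (N + 2)) (hik : i ≠ k) :
    ∃ (v w : E), v ≠ 0 ∧ w ∈ S N i ∧
      ∀ j, j ≠ k → ∀ x ∈ S N j, (j = i ∧ x = w) ∨ ⟪v, x⟫ < ⟪v, w⟫ := by
  have hδ := dl_pos N
  have hδ' := dl_le N
  have hi := i.isLt
  have hk := k.isLt
  by_cases h : i.val ≤ N
  · obtain ⟨v, t, h1, h2, h3⟩ := expose_P i h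
    refine ⟨v, P i.val, h1, mem_S.2 (Or.inr ⟨h, rfl⟩), fun j _ x hx => ?_⟩
    by_cases hj : j = i
    · subst hj
      rcases mem_S.1 hx with ⟨h4, -⟩ | ⟨-, h4⟩
      · omega
      · exact Or.inl ⟨rfl, h4⟩
    · exact Or.inr ((h3 j hj x hx).trans h2)
  · have hik' : i.val ≠ k.val := fun h => hik (Fin.ext h)
    by_cases h0 : k.val = 0
    · refine ⟨!₂[0, -1, 0], Q (dl N) (1 : ℕ), vec_ne _ _ _ (by norm_num),
        mem_S.2 (Or.inl ⟨by omega, 1, le_rfl, by omega, rfl⟩), fun j hj x hx => ?_⟩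
      rcases mem_S.1 hx with ⟨h4, m, hm, -, rfl⟩ | ⟨-, rfl⟩
      · rcases Q_eq_or (N := N) m 1 with h5 | h5
        · exact Or.inl ⟨Fin.ext (by omega), h5⟩
        · right
          rw [inner_Q, inner_Q]
          have : (2 : ℝ) ≤ m := by exact_mod_cast (by omega : 2 ≤ m)
          push_cast
          nlinarith
      · right
        rw [inner_P, inner_Q]
        have : (1 : ℝ) ≤ j.val := by
          have : j.val ≠ k.val := fun h => hj (Fin.ext h)
          exact_mod_cast (by omega : 1 ≤ j.val)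
        push_cast
        nlinarith
    · refine ⟨!₂[1 / 2 - (k.val : ℝ) ^ 2, 2 * k.val, -1], Q (dl N) k.val,
        vec_ne _ _ _ (by norm_num),
        mem_S.2 (Or.inl ⟨by omega, k.val, by omega, by omega, rfl⟩), fun j hj x hx => ?_⟩
      rcases mem_S.1 hx with ⟨h4, m, hm, -, rfl⟩ | ⟨-, rfl⟩
      · rcases Q_eq_or (N := N) m k.val with h5 | h5
        · exact Or.inl ⟨Fin.ext (by omega), h5⟩
        · right
          rw [inner_Q, inner_Q]
          have h6 := mul_le_mul_of_nonneg_left (sq_ge h5) (by linarith : 0 ≤ 1 - dl N)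
          nlinarith
      · right
        rw [inner_P, inner_Q]
        have h5 := sq_ge (fun h => hj (Fin.ext h))
        have h6 : (0 : ℝ) ≤ j.val := Nat.cast_nonneg _
        have h7 := mul_le_mul_of_nonneg_left h5 h6
        have h8 : (1 : ℝ) ≤ k.val := by exact_mod_cast (by omega : 1 ≤ k.val)
        have h9 : (k.val : ℝ) ≤ N := by exact_mod_cast (by omega : k.val ≤ N)
        have h10 : ((k.val : ℝ) - 3 / 2) ^ 2 ≤ (N : ℝ) ^ 2 := by nlinarith
        have h11 := mul_le_mul_of_nonneg_left h10 hδ.le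
        have h12 := dl_mul N
        nlinarith

lemma indep_pts {N : ℕ} (a b c d : Fin (N + 2)) (hab : a ≠ b) (hac : a ≠ c) (had : a ≠ d)
    (hbc : b ≠ c) (hbd : b ≠ d) (hcd : c ≠ d) :
    ∀ x ∈ S N a, ∀ y ∈ S N b, ∀ z ∈ S N c, ∀ w ∈ S N d, Indep x y z w := by
  intro x hx y hy z hz w hw
  rw [← Fin.val_ne_iff] at hab hac had hbc hbd hcd
  have hK : 2 * N ^ 2 + 2 ≠ 0 := by omega
  rcases mem_S.1 hx with ⟨h1, m, -, -, rfl⟩ | ⟨h1, rfl⟩ <;>
  rcases mem_S.1 hy with ⟨h2, m, -, -, rfl⟩ | ⟨h2, rfl⟩ <;>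
  rcases mem_S.1 hz with ⟨h3, m, -, -, rfl⟩ | ⟨h3, rfl⟩ <;>
  rcases mem_S.1 hw with ⟨h4, m, -, -, rfl⟩ | ⟨h4, rfl⟩ <;>
  first
  | omega
  | exact (indep_Q hK hbc hbd hcd).swap.1
  | exact (indep_Q hK hac had hcd).swap.2.1
  | exact (indep_Q hK hab had hbd).swap.2.2
  | exact indep_Q hK hab hac hbc
  | exact indep_P (Nat.cast_injective.ne hab) (Nat.cast_injective.ne hac)
      (Nat.cast_injective.ne hbc) (Nat.cast_injective.ne had) (Nat.cast_injective.ne hbd)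
      (Nat.cast_injective.ne hcd)

lemma Q_mem {N : ℕ} (hN : 3 ≤ N) {T : Set E} (hT : Convex ℝ T)
    (hP : ∀ k : ℕ, k ≤ N → P k ∈ T) {m : ℕ} (h1 : 1 ≤ m) (h2 : m ≤ N) : Q (dl N) m ∈ T := by
  have hδ := dl_pos N
  have hδ' := dl_le N
  have h0 : (0 : E) ∈ T := by
    have := hP 0 (by omega)
    convert this using 1
    ext k; fin_cases k <;> simp [P]
  have hm : (1 : ℝ) ≤ m := by exact_mod_cast h1
  have u : ∀ k : ℕ, 1 ≤ k → k ≤ N → (!₂[1, (k : ℝ), (k : ℝ) ^ 2] : E) ∈ T := by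
    intro k hk1 hk2
    have hk : (1 : ℝ) ≤ k := by exact_mod_cast hk1
    have hk0 : (k : ℝ) ≠ 0 := by linarith
    have := hT.smul_mem_of_zero_mem h0 (hP k hk2) (t := (k : ℝ)⁻¹)
      ⟨by positivity, inv_le_one_of_one_le₀ hk⟩
    convert this using 1
    ext l; fin_cases l <;> simp [P] <;> field_simp
  have u1 := hT (u 2 (by omega) (by omega)) (u 3 (by omega) hN) (a := 2 / 3) (b := 1 / 3)
    (by norm_num) (by norm_num) (by norm_num)
  have u2 := hT (u 1 (by omega) (by omega)) u1 (a := 5 / 8) (b := 3 / 8)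
    (by norm_num) (by norm_num) (by norm_num)
  have u3 := hT (u m h1 h2) u2 (a := 1 - dl N) (b := dl N) (by linarith) hδ.le (by ring)
  have u4 := hT.smul_mem_of_zero_mem h0 u3 (t := 1 / 2) ⟨by norm_num, by norm_num⟩
  convert u4 using 1
  ext l; fin_cases l <;> simp [Q] <;> ring

theorem family {N : ℕ} (hN : 3 ≤ N) : ∃ C : Fin (N + 2) → Set E, Function.Injective C ∧
    (∀ i, IsBody (C i)) ∧ Separable C ∧ Nondegenerate C ∧
    (∀ s : Finset (Fin (N + 2)), s ≠ Finset.univ → ConvexPos C s) ∧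
    ¬ ConvexPos C Finset.univ := by
  classical
  choose v t hv hA hB hC using sep_pts (N := N)
  choose v' w' hv' hw' hE using exp_pts hN
  have e1 : ∀ᶠ r in 𝓝[>] (0 : ℝ), ∀ a b c hac hbc,
      (∀ x ∈ S N a, ⟪v a b c hac hbc, x⟫ + r * ‖v a b c hac hbc‖ < t a b c hac hbc) ∧
      (∀ x ∈ S N b, ⟪v a b c hac hbc, x⟫ + r * ‖v a b c hac hbc‖ < t a b c hac hbc) ∧
      (∀ x ∈ S N c, ⟪-v a b c hac hbc, x⟫ + r * ‖-v a b c hac hbc‖ < -t a b c hac hbc) := by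
    simp only [eventually_all, eventually_and, eventually_all_finset]
    intro a b c hac hbc
    refine ⟨fun x hx => ev_lt _ (hA _ _ _ _ _ x hx), fun x hx => ev_lt _ (hB _ _ _ _ _ x hx),
      fun x hx => ev_lt _ ?_⟩
    rw [inner_neg_left]
    exact neg_lt_neg (hC _ _ _ _ _ x hx)
  have e2 : ∀ᶠ r in 𝓝[>] (0 : ℝ), ∀ i k hik j, j ≠ k → ∀ x ∈ S N j,
      (j = i ∧ x = w' i k hik) ∨
        ⟪v' i k hik, x⟫ + r * ‖v' i k hik‖ < ⟪v' i k hik, w' i k hik⟫ := by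
    simp only [eventually_all, eventually_all_finset]
    intro i k hik j hj x hx
    rcases hE i k hik j hj x hx with h | h
    · exact Eventually.of_forall fun _ => Or.inl h
    · exact (ev_lt _ h).mono fun _ h => Or.inr h
  have e3 : ∀ᶠ r in 𝓝[>] (0 : ℝ), ∀ a b c d : Fin (N + 2), a ≠ b → a ≠ c → a ≠ d → b ≠ c →
      b ≠ d → c ≠ d → ∀ x ∈ S N a, ∀ y ∈ S N b, ∀ z ∈ S N c, ∀ w ∈ S N d, ∀ (v : E) (t : ℝ),
      |⟪v, x⟫ - t| ≤ r * ‖v‖ → |⟪v, y⟫ - t| ≤ r * ‖v‖ → |⟪v, z⟫ - t| ≤ r * ‖v‖ →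
      |⟪v, w⟫ - t| ≤ r * ‖v‖ → v = 0 := by
    simp only [eventually_all (ι := Fin (N + 2)), eventually_imp_distrib_left,
      eventually_all_finset]
    intro a b c d h1 h2 h3 h4 h5 h6 x hx y hy z hz w hw
    exact ev_indep (indep_pts a b c d h1 h2 h3 h4 h5 h6 x hx y hy z hz w hw)
  obtain ⟨r, ⟨f1, f2, f3⟩, hr⟩ := ((e1.and (e2.and e3)).and self_mem_nhdsWithin).exists
  have hr : 0 < r := hr
  let ρ : Fin (N + 2) → ℝ := fun i => if i.val = N + 1 then r / 2 else r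
  have hρ : ∀ i, 0 < ρ i := fun i => by simp only [ρ]; split_ifs <;> linarith
  have hρr : ∀ i, ρ i ≤ r := fun i => by simp only [ρ]; split_ifs <;> linarith
  have hsep : ∀ a b c, a ≠ c → b ≠ c → ∃ (v : E) (t : ℝ), v ≠ 0 ∧
      (∀ x ∈ body (S N a) (ρ a) ∪ body (S N b) (ρ b), ⟪v, x⟫ < t) ∧
      ∀ x ∈ body (S N c) (ρ c), t < ⟪v, x⟫ := by
    intro a b c hac hbc
    obtain ⟨g1, g2, g3⟩ := f1 a b c hac hbc
    refine ⟨_, t a b c hac hbc, hv a b c hac hbc, ?_, ?_⟩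
    · rintro x (hx | hx)
      · exact inner_lt (hρr a) g1 hx
      · exact inner_lt (hρr b) g2 hx
    · intro x hx
      have := inner_lt (hρr c) g3 hx
      rw [inner_neg_left] at this
      linarith
  refine ⟨fun i => body (S N i) (ρ i), ?_, fun i => isBody (S_nonempty hN i) (hρ i),
    fun a b c _ hac hbc => hsep a b c hac hbc, ?_, ?_, ?_⟩
  · intro a c h
    by_contra hac
    obtain ⟨v, t, -, g1, g2⟩ := hsep a a c hac hac
    obtain ⟨x, hx⟩ := S_nonempty hN c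
    have hx' := ball_subset_body (ρ := ρ c) hx (Metric.mem_ball_self (hρ c))
    have h' : body (S N a) (ρ a) = body (S N c) (ρ c) := h
    exact lt_asymm (g1 x (Or.inl (h' ▸ hx'))) (g2 x hx')
  · rintro s hs ⟨v, t, hv, h⟩
    obtain ⟨a, b, c, d, h1, h2, h3, h4, h5, h6, rfl⟩ := Finset.card_eq_four.1 hs
    have g : ∀ i, Supports v t (body (S N i) (ρ i)) → ∃ w ∈ S N i, |⟪v, w⟫ - t| ≤ r * ‖v‖ := by
      intro i hi
      obtain ⟨w, hw, hw'⟩ := near_of_supports (hρ i).le hi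
      exact ⟨w, hw, hw'.trans (mul_le_mul_of_nonneg_right (hρr i) (norm_nonneg _))⟩
    obtain ⟨x, hx, hx'⟩ := g a (h a (by simp))
    obtain ⟨y, hy, hy'⟩ := g b (h b (by simp))
    obtain ⟨z, hz, hz'⟩ := g c (h c (by simp))
    obtain ⟨w, hw, hw'⟩ := g d (h d (by simp))
    exact hv (f3 a b c d h1 h2 h3 h4 h5 h6 x hx y hy z hz w hw v t hx' hy' hz' hw')
  · intro s hs i hi
    obtain ⟨k, hk⟩ : ∃ k, k ∉ s := by
      by_contra hh
      push Not at hh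
      exact hs (Finset.eq_univ_iff_forall.2 hh)
    have hik : i ≠ k := fun h => hk (h ▸ hi)
    exact piece (S N) ρ r hρ hρr s i hi (v' i k hik) (w' i k hik) (hv' i k hik) (hw' i k hik)
      fun j hj x hx => f2 i k hik j (fun h => hk (h ▸ hj)) x hx
  · intro h
    obtain ⟨U, -, ⟨y, hy⟩, hU⟩ := h (Fin.last (N + 1)) (Finset.mem_univ _)
    refine (hU hy).2 ?_
    have hy1 := hy.2.1
    rw [(isCompact_body _ _).isClosed.closure_eq] at hy1
    obtain ⟨k, hk, b, hb, rfl⟩ := hy1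
    have hb' : ‖b‖ ≤ r / 2 := by simpa [ρ] using hb
    refine interior_maximal (t := Metric.ball (k + b) (r / 2)) ?_ Metric.isOpen_ball
      (Metric.mem_ball_self (by linarith))
    intro z hz
    have hz' : ‖z - k‖ ≤ r := by
      rw [Metric.mem_ball, dist_eq_norm] at hz
      have : z - k = (z - (k + b)) + b := by abel
      rw [this]
      linarith [norm_add_le (z - (k + b)) b]
    have hT : Convex ℝ ((fun x => x + (z - k)) ⁻¹'
        convexHull ℝ (⋃ j ∈ (Finset.univ : Finset (Fin (N + 2))), body (S N j) (ρ j))) :=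
      (convex_convexHull _ _).translate_preimage_left _
    have := convexHull_min ?_ hT hk
    · simpa using this
    · intro x hx
      rcases mem_S.1 hx with ⟨-, m, h1, h2, rfl⟩ | ⟨h1, -⟩
      · refine Q_mem hN hT (fun l hl => ?_) h1 h2
        refine subset_convexHull _ _ ?_
        simp only [mem_iUnion]
        refine ⟨⟨l, by omega⟩, Finset.mem_univ _,
          add_mem_body (mem_S.2 (Or.inr ⟨hl, rfl⟩)) ?_⟩
        have : l ≠ N + 1 := by omega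
        simpa [ρ, this] using hz'
      · simp at h1

/-- For every `k` there is `N` such that for every `n ≥ N` some separable nondegenerate family of
`n` convex bodies in space has every `k` members in convex position, but not all `n`. -/
theorem result : ∀ k : ℕ, ∃ N : ℕ, ∀ n ≥ N, ∃ C : Fin n → Set E, Function.Injective C ∧
    (∀ i, IsBody (C i)) ∧ Separable C ∧ Nondegenerate C ∧
    (∀ s : Finset (Fin n), s.card = k → ConvexPos C s) ∧ ¬ ConvexPos C Finset.univ := by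
  intro k
  refine ⟨k + 5, fun n hn => ?_⟩
  obtain ⟨N, rfl⟩ : ∃ N, n = N + 2 := ⟨n - 2, by omega⟩
  obtain ⟨C, h1, h2, h3, h4, h5, h6⟩ := family (N := N) (by omega)
  refine ⟨C, h1, h2, h3, h4, fun s hs => h5 s ?_, h6⟩
  rintro rfl
  simp at hs
  omega

end Pool.Agent.Results.MP_41a254_co.Bodies
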